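import Pool.Agent.H.MP_bb0bf1_gt.C

set_option autoImplicit false

namespace Pool.Agent.Results.MP_bb0bf1_gt.Char

variable {X : Type*} [TopologicalSpace X]

/-- closed preorders -/
def ClosedPre (r : X → X → Prop) : Prop :=
  (∀ x, r x x) ∧ (∀ x y z, r x y → r y z → r x z) ∧ IsClosed {p : X × X | r p.1 p.2}

/-- weak continuity -/
def WeakCont (r : X → X → Prop) : Prop :=
  ∀ x y, r x y → ¬ r y x → ∃ f : X → ℝ, Continuous f ∧ (∀ a b, r a b → f a ≤ f b) ∧ f x < f y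

/-- normality of a preorder -/
def Normal (r : X → X → Prop) : Prop :=
  ∀ A B : Set X, IsClosed A → IsClosed B → (∀ x ∈ A, ∀ z, r z x → z ∈ A) →
    (∀ x ∈ B, ∀ z, r x z → z ∈ B) → Disjoint A B → ∃ U V : Set X, IsOpen U ∧ IsOpen V ∧
      A ⊆ U ∧ B ⊆ V ∧ (∀ x ∈ U, ∀ z, r z x → z ∈ U) ∧ (∀ x ∈ V, ∀ z, r x z → z ∈ V) ∧ Disjoint U V

/-- continuous multi-utility representation -/
def MultiUt (r : X → X → Prop) : Prop :=
  ∃ F : Set (X → ℝ), (∀ f ∈ F, Continuous f) ∧ ∀ x y, r x y ↔ ∀ f ∈ F, f x ≤ f y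

theorem result (X : Type*) [TopologicalSpace X] :
    ((∀ r : X → X → Prop, ClosedPre r → WeakCont r) ↔
      ∀ r : X → X → Prop, ClosedPre r → Normal r) ∧
    ((∀ r : X → X → Prop, ClosedPre r → WeakCont r) ↔
      ∀ r : X → X → Prop, ClosedPre r → MultiUt r) ∧
    (TopologicalSpace.MetrizableSpace X → ((∀ r : X → X → Prop, ClosedPre r → WeakCont r) ↔
      IsCompact (derivedSet (Set.univ : Set X)) ∨ LocallyCompactSpace X ∧
        TopologicalSpace.IsSeparable (derivedSet (Set.univ : Set X)))) := by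
  refine ⟨Pool.Agent.H.MP_bb0bf1_gt.wc_iff, ⟨fun h r hr => ?_, fun h r hr x y hxy hyx => ?_⟩,
    fun _ => ?_⟩
  · refine ⟨{f | Continuous f ∧ ∀ a b, r a b → f a ≤ f b}, fun _ h => h.1, fun x y =>
      ⟨fun h f hf => hf.2 _ _ h, fun h' => by_contra fun hn => ?_⟩⟩
    obtain ⟨f, h1, h2, h3⟩ := Pool.Agent.H.MP_bb0bf1_gt.sep_of_nor hr
      (Pool.Agent.H.MP_bb0bf1_gt.nor_of_wc h hr) hn
    exact h3.not_ge (h' f ⟨h1, h2⟩)
  · obtain ⟨F, h1, h2⟩ := h r hr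
    obtain ⟨f, h3, h4⟩ : ∃ f ∈ F, f x < f y := by simpa [h2] using hyx
    exact ⟨f, h1 f h3, fun a b h => (h2 a b).1 h f h3, h4⟩
  letI := TopologicalSpace.metrizableSpaceMetric X
  exact Pool.Agent.H.MP_bb0bf1_gt.wc_iff.trans Pool.Agent.H.MP_bb0bf1_gt.metr

end Pool.Agent.Results.MP_bb0bf1_gt.Char
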